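import Pool.Agent.H63.HDS.Defs
import Pool.Agent.H24.HD.Bridge

/-!
# The Kakeya maximal inequality in Euclidean spaces
-/

set_option autoImplicit false

open MeasureTheory
open scoped RealInnerProductSpace

namespace HDS

section

variable {E : Type} [NormedAddCommGroup E] [InnerProductSpace ℝ E] {n N : ℕ}
  (φ : E ≃ₗᵢ[ℝ] EuclideanSpace ℝ (Fin n))

theorem mem_tube_iff (δ : ℝ) (c e x : E) :
    x ∈ tube δ c e ↔ φ x ∈ Pool.Agent.H24.HD.tube δ (φ c) (φ e) := by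
  have h1 : ⟪φ x - φ c, φ e⟫ = ⟪x - c, e⟫ := by
    rw [← map_sub, LinearIsometryEquiv.inner_map_map]
  have h2 : ‖(φ x - φ c) - ⟪φ x - φ c, φ e⟫ • φ e‖ = ‖(x - c) - ⟪x - c, e⟫ • e‖ := by
    rw [h1, ← map_sub, ← map_smul, ← map_sub, LinearIsometryEquiv.norm_map]
  show (|⟪x - c, e⟫| ≤ 1 / 2 ∧ ‖(x - c) - ⟪x - c, e⟫ • e‖ ≤ δ) ↔
    (|⟪φ x - φ c, φ e⟫| ≤ 1 / 2 ∧ ‖(φ x - φ c) - ⟪φ x - φ c, φ e⟫ • φ e‖ ≤ δ)
  rw [h2, h1]

theorem mult_eq (δ : ℝ) (c e : Fin N → E) :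
    mult δ c e = Pool.Agent.H24.HD.mult δ (fun i => φ (c i)) (fun i => φ (e i)) ∘ φ := by
  funext x
  show mult δ c e x = Pool.Agent.H24.HD.mult δ (fun i => φ (c i)) (fun i => φ (e i)) (φ x)
  unfold mult Pool.Agent.H24.HD.mult
  refine Finset.sum_congr rfl fun i _ => ?_
  by_cases hx : x ∈ tube δ (c i) (e i)
  · rw [Set.indicator_of_mem hx, Set.indicator_of_mem ((mem_tube_iff φ δ (c i) (e i) x).1 hx)]
  · rw [Set.indicator_of_notMem hx,
      Set.indicator_of_notMem (fun h' => hx ((mem_tube_iff φ δ (c i) (e i) x).2 h'))]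

theorem dirs_image (δ : ℝ) (e : Fin N → E) (h : Dirs δ e) :
    Pool.Agent.H24.HD.Dirs δ (fun i => φ (e i)) := by
  refine ⟨fun i => ?_, fun i j hij => ?_⟩
  · show ‖φ (e i)‖ = 1
    rw [LinearIsometryEquiv.norm_map]
    exact h.1 i
  · show δ ≤ ‖φ (e i) - φ (e j)‖
    rw [← map_sub, LinearIsometryEquiv.norm_map]
    exact h.2 i j hij

end

theorem bound_of (E : Type) [NormedAddCommGroup E] [InnerProductSpace ℝ E]
    [FiniteDimensional ℝ E] [MeasurableSpace E] [BorelSpace E] {d : ℕ}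
    (hE : Module.finrank ℝ E = d + 1) {q s t : ℝ}
    (h : Pool.Agent.H24.HD.Bound d q s t) : Bound E q s t := by
  obtain ⟨C, hC⟩ := h
  refine ⟨C, fun δ hδ0 hδ1 N c e he => ?_⟩
  set b : OrthonormalBasis (Fin (d + 1)) ℝ E :=
    (stdOrthonormalBasis ℝ E).reindex (finCongr hE) with hb
  set φ : E ≃ₗᵢ[ℝ] EuclideanSpace ℝ (Fin (d + 1)) := b.repr with hφd
  have hφ : MeasurePreserving φ volume volume := b.measurePreserving_repr
  have h1 := hC δ hδ0 hδ1 N (fun i => φ (c i)) (fun i => φ (e i)) (dirs_image φ δ e he)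
  refine le_trans (le_of_eq ?_) h1
  have h7 : MeasurableEmbedding φ := φ.toHomeomorph.measurableEmbedding
  rw [mult_eq φ, ← h7.eLpNorm_map_measure, hφ.map_eq]
  rfl

theorem highDimension (E : Type) [NormedAddCommGroup E] [InnerProductSpace ℝ E]
    [FiniteDimensional ℝ E] [MeasurableSpace E] [BorelSpace E] (d : ℕ)
    (hE : Module.finrank ℝ E = d + 1) :
    (∀ α : ℝ, 1 < α → α ^ 3 = 4 * α - 2 → ∀ q : ℝ,
      (2 ≤ d ∧ 1 + 2 / (d + 1) < q ∨ d = 5 ∧ 41 / 31 < q ∨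
        6 ≤ d ∧ 1 + α / (d + 0.279 + 0.05 / d) < q) →
      Bound E q (d / q) (1 - 1 / (q * d))) ∧
    (d = 4 → ∀ q : ℝ, 11 / 8 ≤ q → ∀ ε : ℝ, 0 < ε → Bound E q (9 / q - 4 - ε) (1 / q)) := by
  refine ⟨fun α h1 hα q hq => bound_of E hE (Pool.Agent.H24.HD.main1 h1 hα hq), ?_⟩
  intro hd q hq ε hε
  subst hd
  exact bound_of E hE (Pool.Agent.H24.HD.main2 hq hε)

end HDS
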