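import Mathlib

/-!
# Tubes in Euclidean spaces and the inequality of Q1
-/

set_option autoImplicit false

open MeasureTheory
open scoped RealInnerProductSpace

namespace HDS

variable {E : Type} [NormedAddCommGroup E] [InnerProductSpace ℝ E]

/-- The tube of length `1`, radius `δ`, centre `c` and axis direction `e`. -/
def tube (δ : ℝ) (c e : E) : Set E :=
  {x | |⟪x - c, e⟫| ≤ 1 / 2 ∧ ‖(x - c) - ⟪x - c, e⟫ • e‖ ≤ δ}

/-- The number of tubes which contain the point `x`. -/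
noncomputable def mult {N : ℕ} (δ : ℝ) (c e : Fin N → E) (x : E) : ℝ :=
  ∑ i, (tube δ (c i) (e i)).indicator (fun _ => (1 : ℝ)) x

/-- The directions are unit vectors and `δ`-separated. -/
def Dirs {N : ℕ} (δ : ℝ) (e : Fin N → E) : Prop :=
  (∀ i, ‖e i‖ = 1) ∧ ∀ i j, i ≠ j → δ ≤ ‖e i - e j‖

/-- `‖∑ 1_T‖_q ≤ C δ ^ s N ^ t` for all `0 < δ < 1` and all families of `N` tubes of radius `δ` in
`E` with `δ`-separated orientations; `C` does not depend on `δ` and the family. -/
def Bound (E : Type) [NormedAddCommGroup E] [InnerProductSpace ℝ E] [FiniteDimensional ℝ E]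
    [MeasurableSpace E] [BorelSpace E] (q s t : ℝ) : Prop :=
  ∃ C : ℝ, ∀ δ : ℝ, 0 < δ → δ < 1 → ∀ (N : ℕ) (c e : Fin N → E), Dirs δ e →
    eLpNorm (mult δ c e) (ENNReal.ofReal q) volume ≤ ENNReal.ofReal (C * (δ ^ s * (N : ℝ) ^ t))

end HDS
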